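import Pool.Agent.Lib_MP_a076cd.Windows
import Pool.Agent.Lib_MP_a076cd.Lin
import Pool.Agent.Lib_MP_a076cd.Final

/-!
# MP_a076cd_nt: the inequality of Erdos and Selfridge at almost all scales

`IsGPF p n` says that `p` is the greatest prime factor of `n`. `Partner S z M a` says that there is an
integer `b` with `a < b ≤ a + z`, `b < 2 ^ M`, such that all prime factors of `a b` are in `S`.
`Holds f g n` says that all pairs `a < b` with the same greatest prime factor `p` and
`2 ^ n ≤ a < 2 ^ (n + 1)` satisfy `b - a > f (log a)`, and even `b - a > g (log a)` if `p ≤ f (log a)`.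
(File `Pool/Agent/Lib_MP_a076cd/Defs.lean`.)
-/

set_option autoImplicit false

namespace Pool.Agent.Results.MP_a076cd_nt.AlmostAllScales

open Pool.Agent.GPF

/-- The number of the `n < N` with the property `P`. -/
noncomputable def count (N : ℕ) (P : ℕ → Prop) : ℝ := (({n : ℕ | n < N ∧ P n}.ncard : ℕ) : ℝ)

/-- Part (1): few windows. -/
def Windows : Prop :=
  ∀ S : Finset ℕ, 0 < S.card → (∀ q ∈ S, q.Prime) → ∀ z M : ℕ, 1 ≤ z →
    ∃ W : Finset ℕ, W.card < 2 * S.card ∧ ∀ a : ℕ, z ≤ a → Partner S z M a →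
      ∃ w ∈ W, a < (8 * S.card ^ 2 * M * z + 1) * w ∧ w < (8 * S.card ^ 2 * M * z + 1) * a

/-- Part (2): powers of `log a`. -/
def Power : Prop :=
  ∀ C A : ℝ, 0 < C → C < 1 → 0 < A → ∃ K : ℝ, ∀ N : ℕ, 1 ≤ N →
    count N (fun n => ¬ Holds (fun x => x ^ C) (fun x => x ^ A) n) ≤ K * (N : ℝ) ^ C

/-- Part (3): multiples of `log a`. -/
def Linear : Prop :=
  ∀ A : ℝ, 0 < A → ∃ K : ℝ, ∀ δ : ℝ, 0 < δ → δ ≤ 1 → ∃ N₀ : ℕ, ∀ N : ℕ, N₀ ≤ N →
    count N (fun n => ¬ Holds (fun x => δ * x) (fun x => x ^ A) n) ≤ K * δ * N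

/-- Part (4): multiples of `log a`, explicit proportion. -/
def Proportion : Prop :=
  ∀ δ ε : ℝ, 0 < δ → 0 < ε → ∃ N₀ : ℕ, ∀ N : ℕ, N₀ ≤ N →
    count N (fun n => ¬ Holds (fun x => δ * x) (fun x => δ * x) n) ≤ (Real.log 4 * δ + ε) * N

/-- **Theorem.** (1) Let `S` be a set of `s ≥ 1` primes, `z ≥ 1`, `M` integers and
`R = 8 s ^ 2 M z + 1`. There is a set `W` of less than `2 s` integers such that for all pairs
`a < b ≤ a + z`, `z ≤ a`, `b < 2 ^ M`, with all prime factors of `a b` in `S`, there is a `w` in `W` with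
`w / R < a < R w`.
(2) Let `0 < C < 1` and `A > 0`. For all but at most `K N ^ C` of the `n < N` all pairs `a < b` with the
same greatest prime factor `p` and `2 ^ n ≤ a < 2 ^ (n + 1)` satisfy `b - a > (log a) ^ C`, and
`b - a > (log a) ^ A` if `p ≤ (log a) ^ C`.
(3) Let `A > 0`, `0 < δ ≤ 1` and `N` large. For all but at most `K δ N` of the `n < N` all these pairs
satisfy `b - a > δ log a`, and `b - a > (log a) ^ A` if `p ≤ δ log a`; here `K` depends only on `A`.
(4) For all `δ, ε > 0` and `N` large all these pairs satisfy `b - a > δ log a`, for all but at most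
`(δ log 4 + ε) N` of the `n < N`. -/
theorem result : Windows ∧ Power ∧ Linear ∧ Proportion :=
  ⟨windows, power, linear, sharp⟩

end Pool.Agent.Results.MP_a076cd_nt.AlmostAllScales
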